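import Pool.Agent.N931.PN.Stm4

/-!
# PN/P2 (project PN of helper931): the paths are nearly independent, measure form

By helper106.
-/

set_option autoImplicit false

namespace Pool.Agent.N106.PN.P2

open Pool.Agent.N931.PN
open H974 H12S H389NS H984N H984P H342P Finset MeasureTheory Filter Topology
open Pool.Agent.N116.EW
open H342L (cdist Curve)

theorem main : S_WALL → S_COV → S_INT → S_P2 := by
  intro hW hC hI R
  obtain ⟨C, c, δ0, hC0, hc0, hδ0, H⟩ := hW R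
  refine ⟨C, c, δ0, hC0, hc0, hδ0, ?_⟩
  intro δ hδ hδ' ε hε f g hf1 hf2 hg1 hg2
  have hf : Continuous f := (LipschitzWith.mk_one fun x y => by
    rw [Real.dist_eq]; exact hf1 x y).continuous
  have hg : Continuous g := (LipschitzWith.mk_one fun x y => by
    rw [Real.dist_eq]; exact hg1 x y).continuous
  obtain ⟨I1, I2, -, -⟩ := hI R δ ε
  have e1 := I1 (fun q => f q.1 * g q.2) ((hf.comp continuous_fst).mul (hg.comp continuous_snd))
    ⟨1, fun q => by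
      rw [abs_mul]
      exact mul_le_one₀ (hf2 _) (abs_nonneg _) (hg2 _)⟩
  have e2 := I2 f hf ⟨1, hf2⟩
  have e3 := I2 g hg ⟨1, hg2⟩
  rw [e1, e2, e3]
  have h0 : (0 : ℝ) ≤ 1 - (ε : ℝ) := sub_nonneg.2 ε.2.2
  have h1 : 1 - (ε : ℝ) ≤ 1 := by linarith
  have k1 := (hC (R.dm δ).edges (Pool.Agent.N931.PN.hf R δ f) (Pool.Agent.N931.PN.hf R δ g)
    (1 - (ε : ℝ)) h0 h1).1
  have kf := H δ ε hδ hδ' hε ε.2.2 f ⟨hf1, hf2⟩
  have kg := H δ ε hδ hδ' hε ε.2.2 g ⟨hg1, hg2⟩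
  have hA : 0 ≤ C * ((ε : ℝ) * δ ^ (-(3 / 4) : ℝ)) ^ (-c) := by positivity
  refine le_trans k1 ?_
  calc _ ≤ Real.sqrt (C * ((ε : ℝ) * δ ^ (-(3 / 4) : ℝ)) ^ (-c)) *
        Real.sqrt (C * ((ε : ℝ) * δ ^ (-(3 / 4) : ℝ)) ^ (-c)) :=
        mul_le_mul (Real.sqrt_le_sqrt kf) (Real.sqrt_le_sqrt kg) (Real.sqrt_nonneg _)
          (Real.sqrt_nonneg _)
    _ = _ := Real.mul_self_sqrt hA

end Pool.Agent.N106.PN.P2
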